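import Mathlib

set_option autoImplicit false

namespace Pool.Agent.R15.Mad

open Finset

section weights
variable {ι : Type*} [Fintype ι] [DecidableEq ι]

theorem sum_weight (P : Finset ι) (a b : ℕ) :
    (∑ x : ι → Bool, ∏ p ∈ P, (if x p = true then a else b)) * 2 ^ P.card =
      (a + b) ^ P.card * 2 ^ Fintype.card ι := by
  have h1 : ∀ x : ι → Bool, ∏ p ∈ P, (if x p = true then a else b) =
      ∏ i, (if i ∈ P then (if x i = true then a else b) else 1) := by
    intro x
    rw [Finset.prod_ite_mem]
    congr 1
    simp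
  have h2 : (∑ x : ι → Bool, ∏ p ∈ P, (if x p = true then a else b)) =
      ∏ i, ∑ c : Bool, (if i ∈ P then (if c = true then a else b) else 1) := by
    rw [Finset.prod_univ_sum]
    rw [Fintype.piFinset_univ]
    exact Finset.sum_congr rfl (fun x _ => h1 x)
  have h3 : ∏ i, ∑ c : Bool, (if i ∈ P then (if c = true then a else b) else 1) =
      ∏ i, (if i ∈ P then (a + b) else 2) := by
    apply Finset.prod_congr rfl
    intro i _
    by_cases h : i ∈ P <;> simp [h]
  rw [h2, h3, Finset.prod_ite, Finset.prod_const, Finset.prod_const]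
  have h4 : (univ.filter (fun i => i ∈ P)) = P := by ext; simp
  have h5 : (univ.filter (fun i => i ∉ P)).card + P.card = Fintype.card ι := by
    rw [← h4]
    have := Finset.card_filter_add_card_filter_not (s := (univ : Finset ι)) (p := fun i => i ∈ P)
    rw [Finset.card_univ] at this
    rw [← this]
    simp only [Finset.mem_filter, Finset.mem_univ, true_and]
    omega
  rw [h4, mul_assoc, ← pow_add, h5]

theorem card_false (P : Finset ι) :
    (univ.filter (fun x : ι → Bool => ∀ p ∈ P, x p = false)).card * 2 ^ P.card =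
      2 ^ Fintype.card ι := by
  have h := sum_weight P 0 1
  rw [zero_add, one_pow, one_mul] at h
  rw [← h, Finset.card_filter]
  congr 1
  apply Finset.sum_congr rfl
  intro x _
  split_ifs with hx
  · symm
    apply Finset.prod_eq_one
    intro p hp
    rw [hx p hp]; simp
  · push Not at hx
    obtain ⟨p, hp, hxp⟩ := hx
    symm
    apply Finset.prod_eq_zero hp
    simp only [ne_eq, Bool.not_eq_false] at hxp
    rw [if_pos hxp]

theorem card_tail (P : Finset ι) (n : ℕ) (hn : 8 * n ≤ P.card) :
    (univ.filter (fun x : ι → Bool => (P.filter (fun p => x p = false)).card ≤ n)).card *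
      2 ^ (3 * n) ≤ 2 ^ Fintype.card ι := by
  set B := univ.filter (fun x : ι → Bool => (P.filter (fun p => x p = false)).card ≤ n) with hB
  have h := sum_weight P 3 1
  have h1 : B.card * 3 ^ (P.card - n) ≤
      ∑ x : ι → Bool, ∏ p ∈ P, (if x p = true then 3 else 1) := by
    calc B.card * 3 ^ (P.card - n) = ∑ x ∈ B, 3 ^ (P.card - n) := by
          rw [Finset.sum_const, smul_eq_mul]
      _ ≤ ∑ x ∈ B, ∏ p ∈ P, (if x p = true then 3 else 1) := by
          apply Finset.sum_le_sum
          intro x hx
          rw [hB, Finset.mem_filter] at hx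
          rw [Finset.prod_ite, Finset.prod_const, Finset.prod_const, one_pow, mul_one]
          apply Nat.pow_le_pow_right (by norm_num)
          have h2 := Finset.card_filter_add_card_filter_not (s := P) (p := fun p => x p = true)
          have h3 : (P.filter (fun p => ¬ x p = true)) = P.filter (fun p => x p = false) := by
            apply Finset.filter_congr
            intro p _
            simp
          rw [h3] at h2
          have := hx.2
          omega
      _ ≤ _ := Finset.sum_le_sum_of_subset (Finset.subset_univ _)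
  have h2 : B.card * 3 ^ (P.card - n) * 2 ^ P.card ≤ 4 ^ P.card * 2 ^ Fintype.card ι := by
    rw [show (4 : ℕ) = 3 + 1 from rfl, ← h]
    exact Nat.mul_le_mul_right _ h1
  have h3 : (4 : ℕ) ^ P.card = 2 ^ P.card * 2 ^ P.card := by
    rw [← mul_pow]; norm_num
  have h4 : (2 : ℕ) ^ (P.card + 3 * n) ≤ 3 ^ (P.card - n) := by
    obtain ⟨q, hq⟩ := Nat.exists_eq_add_of_le hn
    rw [hq]
    rw [show 8 * n + q + 3 * n = 11 * n + q by ring, show 8 * n + q - n = 7 * n + q by omega,
      pow_add, pow_add, pow_mul, pow_mul]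
    apply Nat.mul_le_mul
    · exact Nat.pow_le_pow_left (by norm_num) _
    · exact Nat.pow_le_pow_left (by norm_num) _
  have h5 : B.card * 2 ^ (P.card + 3 * n) * 2 ^ P.card ≤
      2 ^ P.card * 2 ^ P.card * 2 ^ Fintype.card ι := by
    rw [← h3]
    exact (Nat.mul_le_mul_right _ (Nat.mul_le_mul_left _ h4)).trans h2
  rw [pow_add] at h5
  have h6 : 0 < 2 ^ P.card * 2 ^ P.card := by positivity
  have h7 : (2 ^ P.card * 2 ^ P.card) * (B.card * 2 ^ (3 * n)) ≤
      (2 ^ P.card * 2 ^ P.card) * 2 ^ Fintype.card ι := by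
    calc _ = B.card * (2 ^ P.card * 2 ^ (3 * n)) * 2 ^ P.card := by ring
      _ ≤ _ := h5
  exact Nat.le_of_mul_le_mul_left h7 h6

end weights

/-- the union bound -/
theorem exists_good {k n s : ℕ} (A : Finset (Fin k × Fin k)) (h8 : 8 * n ≤ A.card)
    (h1 : n ^ k * 4 ≤ 2 ^ (3 * n)) (h2 : n ^ s * 4 ≤ 2 ^ (s.choose 2)) :
    ∃ x : Fin n × Fin n → Bool,
      (∀ φ : Fin k → Fin n, Function.Injective φ →
        n < (A.filter (fun e => x (φ e.1, φ e.2) = false)).card) ∧
      (∀ σ : Fin s → Fin n, Function.Injective σ → ∃ i j, j < i ∧ x (σ i, σ j) = true) := by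
  classical
  by_contra hcon
  push Not at hcon
  set N := 2 ^ Fintype.card (Fin n × Fin n) with hN
  have hNpos : 0 < N := by positivity
  let B1 : (Fin k → Fin n) → Finset (Fin n × Fin n → Bool) := fun φ =>
    univ.filter (fun x => Function.Injective φ ∧ (A.filter (fun e => x (φ e.1, φ e.2) = false)).card ≤ n)
  let B2 : (Fin s → Fin n) → Finset (Fin n × Fin n → Bool) := fun σ =>
    univ.filter (fun x => Function.Injective σ ∧ ∀ i j, j < i → x (σ i, σ j) = false)
  have hc1 : ∀ φ, (B1 φ).card * 2 ^ (3 * n) ≤ N := by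
    intro φ
    by_cases hφ : Function.Injective φ
    · have hinj : Function.Injective (fun e : Fin k × Fin k => (φ e.1, φ e.2)) := by
        intro e e' h
        simp only [Prod.mk.injEq] at h
        exact Prod.ext (hφ h.1) (hφ h.2)
      have h := card_tail (A.image (fun e => (φ e.1, φ e.2))) n (by
        rw [Finset.card_image_of_injective _ hinj]; exact h8)
      refine le_trans (Nat.mul_le_mul_right _ (Finset.card_le_card ?_)) h
      intro x hx
      rw [Finset.mem_filter] at hx ⊢
      refine ⟨Finset.mem_univ _, ?_⟩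
      rw [Finset.filter_image, Finset.card_image_of_injective _ hinj]
      exact hx.2.2
    · have : B1 φ = ∅ := by
        apply Finset.filter_false_of_mem
        rintro x _ ⟨h, _⟩
        exact hφ h
      rw [this]; simp
  have hc2 : ∀ σ, (B2 σ).card * 2 ^ (s.choose 2) ≤ N := by
    intro σ
    by_cases hσ : Function.Injective σ
    · have hinj : Function.Injective (fun e : Fin s × Fin s => (σ e.1, σ e.2)) := by
        intro e e' h
        simp only [Prod.mk.injEq] at h
        exact Prod.ext (hσ h.1) (hσ h.2)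
      set P : Finset (Fin s × Fin s) := univ.filter (fun e => e.2 < e.1) with hP
      have hPc : P.card = s.choose 2 := by
        have h1 : P.card = ∑ i : Fin s, (i : ℕ) := by
          rw [hP, Finset.card_filter, ← Finset.univ_product_univ, Finset.sum_product]
          apply Finset.sum_congr rfl
          intro i _
          rw [← Finset.card_filter]
          have : (univ.filter (fun j : Fin s => j < i)) = Finset.Iio i := by ext; simp
          rw [this, Fin.card_Iio]
        rw [h1, Fin.sum_univ_eq_sum_range (fun i => i) s, Finset.sum_range_id, Nat.choose_two_right]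
      have h := card_false (P.image (fun e => (σ e.1, σ e.2)))
      rw [Finset.card_image_of_injective _ hinj, hPc] at h
      rw [hN, ← h]
      apply Nat.mul_le_mul_right
      apply Finset.card_le_card
      intro x hx
      rw [Finset.mem_filter] at hx ⊢
      refine ⟨Finset.mem_univ _, ?_⟩
      intro p hp
      obtain ⟨e, he, rfl⟩ := Finset.mem_image.mp hp
      rw [hP, Finset.mem_filter] at he
      exact hx.2.2 _ _ he.2
    · have : B2 σ = ∅ := by
        apply Finset.filter_false_of_mem
        rintro x _ ⟨h, _⟩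
        exact hσ h
      rw [this]; simp
  have hcover : (univ : Finset (Fin n × Fin n → Bool)) ⊆
      (univ.biUnion B1) ∪ (univ.biUnion B2) := by
    intro x _
    by_cases hx : ∀ φ : Fin k → Fin n, Function.Injective φ →
        n < (A.filter (fun e => x (φ e.1, φ e.2) = false)).card
    · obtain ⟨σ, hσ, hσ'⟩ := hcon x hx
      apply Finset.mem_union_right
      rw [Finset.mem_biUnion]
      refine ⟨σ, Finset.mem_univ _, ?_⟩
      rw [Finset.mem_filter]
      refine ⟨Finset.mem_univ _, hσ, ?_⟩
      intro i j hij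
      have := hσ' i j hij
      simpa using this
    · push Not at hx
      obtain ⟨φ, hφ, hφ'⟩ := hx
      apply Finset.mem_union_left
      rw [Finset.mem_biUnion]
      refine ⟨φ, Finset.mem_univ _, ?_⟩
      rw [Finset.mem_filter]
      exact ⟨Finset.mem_univ _, hφ, hφ'⟩
  have hcard : N ≤ ∑ φ, (B1 φ).card + ∑ σ, (B2 σ).card := by
    calc N = (univ : Finset (Fin n × Fin n → Bool)).card := by
          rw [Finset.card_univ, Fintype.card_fun, Fintype.card_bool]
      _ ≤ _ := Finset.card_le_card hcover
      _ ≤ _ := Finset.card_union_le _ _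
      _ ≤ _ := Nat.add_le_add Finset.card_biUnion_le Finset.card_biUnion_le
  have hs1 : (∑ φ, (B1 φ).card) * 4 ≤ N := by
    have h3 : (∑ φ, (B1 φ).card) * 2 ^ (3 * n) ≤ n ^ k * N := by
      rw [Finset.sum_mul]
      calc _ ≤ ∑ _φ : Fin k → Fin n, N := Finset.sum_le_sum (fun φ _ => hc1 φ)
        _ = n ^ k * N := by
          rw [Finset.sum_const, Finset.card_univ, Fintype.card_fun, Fintype.card_fin,
            Fintype.card_fin, smul_eq_mul]
    have h4 : 0 < 2 ^ (3 * n) := by positivity
    apply Nat.le_of_mul_le_mul_left (c := 2 ^ (3 * n)) _ h4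
    calc 2 ^ (3 * n) * ((∑ φ, (B1 φ).card) * 4) = ((∑ φ, (B1 φ).card) * 2 ^ (3 * n)) * 4 := by ring
      _ ≤ n ^ k * N * 4 := Nat.mul_le_mul_right _ h3
      _ = (n ^ k * 4) * N := by ring
      _ ≤ 2 ^ (3 * n) * N := Nat.mul_le_mul_right _ h1
  have hs2 : (∑ σ, (B2 σ).card) * 4 ≤ N := by
    have h3 : (∑ σ, (B2 σ).card) * 2 ^ (s.choose 2) ≤ n ^ s * N := by
      rw [Finset.sum_mul]
      calc _ ≤ ∑ _φ : Fin s → Fin n, N := Finset.sum_le_sum (fun φ _ => hc2 φ)
        _ = n ^ s * N := by
          rw [Finset.sum_const, Finset.card_univ, Fintype.card_fun, Fintype.card_fin,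
            Fintype.card_fin, smul_eq_mul]
    have h4 : 0 < 2 ^ (s.choose 2) := by positivity
    apply Nat.le_of_mul_le_mul_left (c := 2 ^ (s.choose 2)) _ h4
    calc 2 ^ (s.choose 2) * ((∑ φ, (B2 φ).card) * 4) =
          ((∑ φ, (B2 φ).card) * 2 ^ (s.choose 2)) * 4 := by ring
      _ ≤ n ^ s * N * 4 := Nat.mul_le_mul_right _ h3
      _ = (n ^ s * 4) * N := by ring
      _ ≤ 2 ^ (s.choose 2) * N := Nat.mul_le_mul_right _ h2
  omega

end Pool.Agent.R15.Mad
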